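import Pool.Agent.Helper26.RP.Goals

/-!
# MP_105b7b_pr, packet OFF: the probability of the problem file
-/

noncomputable section

namespace RP.PkOFF

open MeasureTheory Filter Topology Set

/-! ### Geometry -/

theorem orient_seg {a b c d p : E} (hp : p ∈ segment ℝ c d) :
    ∃ t : ℝ, p = (1 - t) • c + t • d ∧ orient a b p = (1 - t) * orient a b c + t * orient a b d := by
  obtain ⟨s, t, hs, ht, hst, rfl⟩ := hp
  have hs' : s = 1 - t := by linarith
  subst hs'
  refine ⟨t, rfl, ?_⟩
  simp only [orient, Prod.fst_add, Prod.snd_add, Prod.smul_fst, Prod.smul_snd, smul_eq_mul]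
  ring

theorem orient_self (a b : E) : orient a b b = 0 := by
  simp only [orient]; ring

theorem orient_self' (a b : E) : orient a a b = 0 := by
  simp only [orient]; ring

theorem orient_self'' (a b : E) : orient a b a = 0 := by
  simp only [orient]; ring

theorem orient_zero {a b p : E} (hp : p ∈ segment ℝ a b) : orient a b p = 0 := by
  obtain ⟨t, -, ht⟩ := orient_seg (a := a) (b := b) hp
  rw [ht, orient_self, orient_self'']
  ring

/-- Two segments with a common endpoint in general position. -/
theorem seg_inter {a b c : E} (h : orient a b c ≠ 0) :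
    segment ℝ a b ∩ segment ℝ b c = {b} := by
  ext p
  rw [mem_inter_iff, mem_singleton_iff]
  constructor
  · rintro ⟨h1, h2⟩
    obtain ⟨t, ht, ht'⟩ := orient_seg (a := a) (b := b) h2
    rw [orient_zero h1, orient_self, mul_zero, zero_add] at ht'
    have ht0 : t = 0 := by
      rcases mul_eq_zero.1 ht'.symm with h3 | h3
      · exact h3
      · exact absurd h3 h
    rw [ht, ht0]
    simp
  · rintro rfl
    exact ⟨right_mem_segment ℝ _ _, left_mem_segment ℝ _ _⟩

theorem rot_ne {n : ℕ} (hn : 3 ≤ n) (i : Fin n) : finRotate n i ≠ i := by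
  obtain ⟨m, rfl⟩ : ∃ m, n = m + 1 := ⟨n - 1, by omega⟩
  intro h
  have h1 := congrArg Fin.val h
  rw [coe_finRotate] at h1
  have := i.isLt
  split_ifs at h1 with h2
  · have h3 := congrArg Fin.val h2
    rw [Fin.val_last] at h3
    omega
  · omega

theorem rot_rot_ne {n : ℕ} (hn : 3 ≤ n) (i : Fin n) : finRotate n (finRotate n i) ≠ i := by
  obtain ⟨m, rfl⟩ : ∃ m, n = m + 1 := ⟨n - 1, by omega⟩
  intro h
  have h1 := congrArg Fin.val h
  rw [coe_finRotate, coe_finRotate] at h1
  have := i.isLt
  by_cases h2 : i = Fin.last m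
  · have h3 := congrArg Fin.val h2
    rw [Fin.val_last] at h3
    have h4 : finRotate (m + 1) i ≠ Fin.last m := by
      intro h5
      have h6 := congrArg Fin.val h5
      rw [coe_finRotate, if_pos h2, Fin.val_last] at h6
      omega
    rw [if_neg h4, if_pos h2] at h1
    omega
  · rw [if_neg h2] at h1
    by_cases h5 : finRotate (m + 1) i = Fin.last m
    · have h6 := congrArg Fin.val h5
      rw [coe_finRotate, if_neg h2, Fin.val_last] at h6
      rw [if_pos h5] at h1
      omega
    · rw [if_neg h5] at h1
      omega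

theorem gp_inj {n : ℕ} (hn : 3 ≤ n) {x : Fin n → E} (hx : GP x) : Function.Injective x := by
  classical
  intro i j hij
  by_contra hne
  have hc : ({i, j} : Finset (Fin n)).card < (Finset.univ : Finset (Fin n)).card := by
    rw [Finset.card_univ, Fintype.card_fin]
    exact lt_of_le_of_lt (Finset.card_le_two) (by omega)
  obtain ⟨k, -, hk⟩ := Finset.exists_mem_notMem_of_card_lt_card hc
  rw [Finset.mem_insert, Finset.mem_singleton, not_or] at hk
  apply hx i j k hne (Ne.symm hk.2) (Ne.symm hk.1)
  rw [hij, orient_self']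

theorem simple_iff {n : ℕ} (hn : 3 ≤ n) {x : Fin n → E} (hx : GP x) :
    IsSimple x ↔ Cl (finRotate n) x := by
  have hinj := gp_inj hn hx
  have hadj : ∀ i j : Fin n, i ≠ j → j = finRotate n i → edge x i ∩ edge x j = {x j} := by
    intro i j hij hj
    have h1 : i ≠ finRotate n j := by
      rw [hj]; exact (rot_rot_ne hn i).symm
    have h2 := hx i j (finRotate n j) hij (rot_ne hn j).symm h1
    have h3 := seg_inter h2
    rw [edge, edge, ← hj]
    exact h3
  constructor
  · intro h
    refine ⟨hx, fun i j => ?_⟩
    by_cases hij : i = j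
    · exact Or.inl (Or.inl (by rw [hij]))
    by_cases h1 : j = finRotate n i
    · exact Or.inl (Or.inr (Or.inr (Or.inl (by rw [h1]))))
    by_cases h2 : i = finRotate n j
    · exact Or.inl (Or.inr (Or.inl (by rw [← h2])))
    · right
      have h3 := h i j hij
      rw [if_neg h1, if_neg h2, union_empty] at h3
      exact Set.disjoint_iff_inter_eq_empty.2 h3
  · rintro ⟨-, h⟩ i j hij
    by_cases h1 : j = finRotate n i
    · have h2 : i ≠ finRotate n j := by
        rw [h1]; exact (rot_rot_ne hn i).symm
      rw [if_pos h1, if_neg h2, union_empty]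
      exact hadj i j hij h1
    by_cases h2 : i = finRotate n j
    · rw [if_neg h1, if_pos h2, empty_union, inter_comm]
      exact hadj j i (Ne.symm hij) h2
    · rw [if_neg h1, if_neg h2, union_empty]
      rcases h i j with h3 | h3
      · exfalso
        rcases h3 with h3 | h3 | h3 | h3
        · exact hij (hinj h3)
        · exact h2 (hinj h3)
        · exact h1 (hinj h3).symm
        · exact hij ((finRotate n).injective (hinj h3))
      · exact Set.disjoint_iff_inter_eq_empty.1 h3

/-! ### Measure -/

theorem pi_cond (n : ℕ) (K : Set E) (hm : MeasurableSet K) (h0 : volume K ≠ 0)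
    (ht : volume K ≠ ⊤) :
    (Measure.pi fun _ : Fin n => ProbabilityTheory.cond (volume : Measure E) K) =
      ((volume K)⁻¹) ^ n • (volume : Measure (Fin n → E)).restrict (Set.pi univ fun _ => K) := by
  have : IsProbabilityMeasure (ProbabilityTheory.cond (volume : Measure E) K) :=
    ProbabilityTheory.cond_isProbabilityMeasure_of_finite h0 ht
  refine Measure.pi_eq fun s hs => ?_
  have hK : MeasurableSet (Set.pi univ fun _ : Fin n => K) := MeasurableSet.univ_pi fun _ => hm
  rw [Measure.smul_apply, Measure.restrict_apply' hK, ← Set.pi_inter_distrib, volume_pi_pi,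
    smul_eq_mul]
  simp only [ProbabilityTheory.cond_apply hm]
  rw [Finset.prod_mul_distrib, Finset.prod_const, Finset.card_univ, Fintype.card_fin]
  congr 1
  exact Finset.prod_congr rfl fun i _ => by rw [inter_comm]

theorem off (hN : G_NUL) : G_OFF := by
  intro n K hn hK
  obtain ⟨-, hGP, -⟩ := hN
  have hm : MeasurableSet K := hK.cpt.isClosed.measurableSet
  have h0 : volume K ≠ 0 := (Measure.measure_pos_of_nonempty_interior volume hK.int).ne'
  have ht : volume K ≠ ⊤ := hK.cpt.measure_lt_top.ne
  have hKn : MeasurableSet (Set.pi univ fun _ : Fin n => K) := MeasurableSet.univ_pi fun _ => hm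
  have h1 : (Measure.pi fun _ : Fin n => ProbabilityTheory.cond (volume : Measure (ℝ × ℝ)) K)
      {x | IsSimple x} = ((volume K)⁻¹) ^ n * vc n K := by
    have h2 := pi_cond n K hm h0 ht
    rw [show (Measure.pi fun _ : Fin n => ProbabilityTheory.cond (volume : Measure (ℝ × ℝ)) K) = _
      from h2, Measure.smul_apply, Measure.restrict_apply' hKn, smul_eq_mul]
    congr 1
    rw [vc]
    apply measure_congr
    filter_upwards [hGP (Fin n)] with x hx
    refine propext ?_
    show (IsSimple x ∧ x ∈ Set.pi univ fun _ : Fin n => K) ↔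
      (∀ i, x i ∈ K) ∧ Cl (finRotate n) x
    rw [simple_iff hn hx, Set.mem_univ_pi]
    exact and_comm
  rw [simpleProb, Measure.real, h1, ENNReal.toReal_mul, ENNReal.toReal_pow, ENNReal.toReal_inv, w,
    vr, ar]
  rw [inv_pow, div_eq_mul_inv]
  ring

end RP.PkOFF
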