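import Pool.Agent.Helper26.RP.Goals

/-!
# MP_105b7b_pr, packet OUT: approximation of a convex body from outside
-/

noncomputable section

namespace RP.PkOUT

open MeasureTheory Filter Topology Set

/-- A large triangle contains the box. -/
theorem box_sub (R : ℝ) (hR : 0 < R) (z : E) (h1 : |z.1| ≤ R) (h2 : |z.2| ≤ R) :
    z ∈ tri (-R, -R) (3 * R, -R) (-R, 3 * R) := by
  rw [abs_le] at h1 h2
  set b : ℝ := (z.1 + R) / (4 * R) with hb
  set c : ℝ := (z.2 + R) / (4 * R) with hc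
  have hb0 : 0 ≤ b := by rw [hb]; apply div_nonneg <;> linarith
  have hc0 : 0 ≤ c := by rw [hc]; apply div_nonneg <;> linarith
  have ha0 : 0 ≤ 1 - b - c := by
    have : b + c ≤ 1 := by
      rw [hb, hc, ← add_div, div_le_one (by linarith)]
      linarith
    linarith
  have h := (convex_convexHull ℝ ({(-R, -R), (3 * R, -R), (-R, 3 * R)} : Set E)).sum_mem
    (t := Finset.univ) (w := ![1 - b - c, b, c]) (z := ![(-R, -R), (3 * R, -R), (-R, 3 * R)])
    (by
      intro i _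
      fin_cases i
      · exact ha0
      · exact hb0
      · exact hc0)
    (by
      rw [Fin.sum_univ_three]
      show 1 - b - c + b + c = 1
      ring)
    (by
      intro i _
      apply subset_convexHull
      fin_cases i <;> simp)
  rw [Fin.sum_univ_three] at h
  have e : z = (1 - b - c) • ((-R, -R) : E) + b • ((3 * R, -R) : E) + c • ((-R, 3 * R) : E) := by
    have hR' : R ≠ 0 := hR.ne'
    ext
    · simp only [Prod.fst_add, Prod.smul_fst, smul_eq_mul, hb, hc]
      field_simp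
      ring
    · simp only [Prod.snd_add, Prod.smul_snd, smul_eq_mul, hb, hc]
      field_simp
      ring
  rw [e]
  exact h

theorem sep {K : Set E} (hK : Body K) {z : E} (hz : z ∉ K) :
    ∃ c : ℝ × ℝ × ℝ, (c.1 ≠ 0 ∨ c.2.1 ≠ 0) ∧ K ⊆ HL c.1 c.2.1 c.2.2 ∧ z ∉ HL c.1 c.2.1 c.2.2 := by
  obtain ⟨f, u, h1, h2⟩ := geometric_hahn_banach_closed_point hK.conv hK.cpt.isClosed hz
  have hf : ∀ p : E, f p = f (1, 0) * p.1 + f (0, 1) * p.2 := by
    intro p
    have e : p = p.1 • ((1, 0) : E) + p.2 • ((0, 1) : E) := by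
      ext <;> simp
    conv_lhs => rw [e]
    rw [map_add, map_smul, map_smul, smul_eq_mul, smul_eq_mul]
    ring
  obtain ⟨a, ha⟩ : K.Nonempty := hK.int.mono interior_subset
  refine ⟨(f (1, 0), f (0, 1), u), ?_, ?_, ?_⟩
  · by_contra hc
    push Not at hc
    have hc1 : f (1, 0) = 0 := hc.1
    have hc2 : f (0, 1) = 0 := hc.2
    have h3 := h1 a ha
    rw [hf, hc1, hc2] at h3
    rw [hf, hc1, hc2] at h2
    linarith
  · intro p hp
    have h3 := h1 p hp
    rw [hf] at h3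
    exact h3.le
  · intro h3
    rw [hf] at h2
    exact absurd h2 (not_lt.2 h3)

theorem hl_closed (α β γ : ℝ) : IsClosed (HL α β γ) :=
  isClosed_le (by fun_prop) continuous_const

theorem out : G_OUT := by
  intro K hK ε hε
  have h0 : volume K ≠ 0 := (Measure.measure_pos_of_nonempty_interior volume hK.int).ne'
  have ht : volume K ≠ ⊤ := hK.cpt.measure_lt_top.ne
  have har : 0 < ar K := ENNReal.toReal_pos h0 ht
  -- the open set
  have hlt : volume K < ENNReal.ofReal ((1 + ε) * ar K) := by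
    rw [← ENNReal.ofReal_toReal ht]
    refine (ENNReal.ofReal_lt_ofReal_iff (by positivity)).2 ?_
    show ar K < (1 + ε) * ar K
    nlinarith
  obtain ⟨U, hKU, hU, hUlt⟩ := K.exists_isOpen_lt_of_lt _ hlt
  -- the triangle
  obtain ⟨R0, hR0⟩ := hK.cpt.isBounded.exists_norm_le
  set R : ℝ := max R0 1 with hRdef
  have hR : 0 < R := lt_of_lt_of_le one_pos (le_max_right _ _)
  have hKT : K ⊆ tri (-R, -R) (3 * R, -R) (-R, 3 * R) := by
    intro z hz
    have h1 := hR0 z hz
    rw [Prod.norm_def] at h1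
    have h2 : ‖z.1‖ ≤ R := ((le_max_left _ _).trans h1).trans (le_max_left _ _)
    have h3 : ‖z.2‖ ≤ R := ((le_max_right _ _).trans h1).trans (le_max_left _ _)
    exact box_sub R hR z h2 h3
  have hTc : IsCompact (tri (-R, -R) (3 * R, -R) (-R, 3 * R)) :=
    Set.Finite.isCompact_convexHull ℝ (Set.toFinite _)
  have hC : IsCompact (tri (-R, -R) (3 * R, -R) (-R, 3 * R) \ U) := hTc.diff hU
  -- half-planes
  have hsep : ∀ z : E, ∃ c : ℝ × ℝ × ℝ, z ∉ K →
      (c.1 ≠ 0 ∨ c.2.1 ≠ 0) ∧ K ⊆ HL c.1 c.2.1 c.2.2 ∧ z ∉ HL c.1 c.2.1 c.2.2 := by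
    intro z
    by_cases hz : z ∈ K
    · exact ⟨(0, 0, 0), fun h => absurd hz h⟩
    · obtain ⟨c, hc⟩ := sep hK hz
      exact ⟨c, fun _ => hc⟩
  choose c hc using hsep
  have hnK : ∀ z ∈ tri (-R, -R) (3 * R, -R) (-R, 3 * R) \ U, z ∉ K := fun z hz h => hz.2 (hKU h)
  obtain ⟨t, htC, hcov⟩ := hC.elim_nhds_subcover
    (fun z => (HL (c z).1 (c z).2.1 (c z).2.2)ᶜ) (fun z hz =>
      (hl_closed _ _ _).isOpen_compl.mem_nhds (hc z (hnK z hz)).2.2)
  let e : Fin t.card → E := fun i => (t.equivFin.symm i : E)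
  have he : ∀ i, e i ∈ t := fun i => (t.equivFin.symm i).2
  have heK : ∀ i, e i ∉ K := fun i => hnK _ (htC _ (he i))
  refine ⟨(-R, -R), (3 * R, -R), (-R, 3 * R), t.card, fun i => (c (e i)).1,
    fun i => (c (e i)).2.1, fun i => (c (e i)).2.2, ?_, hKT, fun i => (hc _ (heK i)).1,
    fun i => (hc _ (heK i)).2.1, ?_⟩
  · simp only [orient]
    have : (3 * R - -R) * (3 * R - -R) - (-R - -R) * (-R - -R) = 16 * R ^ 2 := by ring
    rw [this]
    positivity
  · have hsub : tri (-R, -R) (3 * R, -R) (-R, 3 * R) ∩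
        ⋂ i, HL (c (e i)).1 (c (e i)).2.1 (c (e i)).2.2 ⊆ U := by
      rintro z ⟨hz1, hz2⟩
      by_contra hzU
      have h1 := hcov ⟨hz1, hzU⟩
      rw [mem_iUnion₂] at h1
      obtain ⟨y, hy, hy'⟩ := h1
      have h2 := mem_iInter.1 hz2 (t.equivFin ⟨y, hy⟩)
      have h3 : e (t.equivFin ⟨y, hy⟩) = y := by
        show ((t.equivFin.symm (t.equivFin ⟨y, hy⟩) : t) : E) = y
        rw [Equiv.symm_apply_apply]
      rw [h3] at h2
      exact hy' h2
    have h1 : volume (tri (-R, -R) (3 * R, -R) (-R, 3 * R) ∩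
        ⋂ i, HL (c (e i)).1 (c (e i)).2.1 (c (e i)).2.2) ≤ ENNReal.ofReal ((1 + ε) * ar K) :=
      (measure_mono hsub).trans hUlt.le
    exact ENNReal.toReal_le_of_le_ofReal (by positivity) h1

end RP.PkOUT
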